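import Pool.Agent.H48.RA.Gen
import Pool.Agent.H48.R9.Thr
import Pool.Agent.H1.C7.Fin
import Pool.Agent.H1.LD.PrdE
import Pool.Agent.H1.LD.PrdD

/-!
Assembly: n ≤ 9 by products with intervals, codimension at most seven by zero padding.
-/

set_option autoImplicit false

open MeasureTheory Filter Topology Metric Set
open scoped RealInnerProductSpace ENNReal

namespace Pool.Agent.H48.RA

open Pool.Agent.RZ Pool.Agent.H1.LD

variable {d : ℕ}

theorem dich_prod9 {n : ℕ} (hn : 1 ≤ n) (k : ℕ) (hk : n + k = 9) (hnd : n < d) {μ : Measure (X d)}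
    [IsFiniteMeasure μ] {C₀ : ℝ} (hC₀ : 0 ≤ C₀) (hg : Gr n C₀ μ) (hE : En n μ) : Dich n μ := by
  induction k generalizing n d C₀ with
  | zero =>
    obtain rfl : n = 9 := by omega
    exact Pool.Agent.H48.R9.dich_nine (by omega) hC₀ hg hE
  | succ k ih =>
    have hfin1 := prI_finite μ
    have h2 : (0 : ℝ) ≤ 2 * C₀ := by linarith
    have hg1 := prI_growth hC₀ hg
    have hE1 := prI_energy hn hC₀ hg hE
    exact prI_dich hC₀ hg (ih (n := n + 1) (by omega) (by omega) (by omega) h2 hg1 hE1)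

theorem main_all {n : ℕ} (hn : 1 ≤ n) (hnd : n < d) (h : n ≤ 9 ∨ d ≤ n + 7) {E : Set (X d)}
    (hE : IsCompact E) (hfin : Measure.hausdorffMeasure (n : ℝ) E < ⊤) {B : NNReal}
    (hb : Bdd n ((Measure.hausdorffMeasure (n : ℝ)).restrict E) B) :
    ∃ g : ℕ → X n → X d, (∀ i, ∃ K, LipschitzWith K (g i)) ∧
      Measure.hausdorffMeasure (n : ℝ) (E \ ⋃ i, Set.range (g i)) = 0 := by
  refine main_gen hn hnd (fun μ hμ A hA C₀ hC₀ hg hen => ?_) hE hfin hb
  rcases h with h | h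
  · exact dich_prod9 hn (9 - n) (by omega) hnd hC₀ hg hen
  · exact Pool.Agent.H1.C7.dich_codim7 hn h hA hC₀ hg hen

end Pool.Agent.H48.RA
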